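import Mathlib
import Pool.Agent.Helper75.CovDim

set_option autoImplicit false

open Topology Set Filter
open scoped BoundedContinuousFunction

namespace Pool.Agent.Helper75.BG

universe u v w

variable {G : Type u} [TopologicalSpace G] [Group G]

/-- Right uniform continuity. -/
def UC {E : Type*} [NormedAddCommGroup E] (f : G → E) : Prop :=
  ∀ ε : ℝ, 0 < ε → ∃ W ∈ nhds (1 : G), ∀ u ∈ W, ∀ x : G, ‖f (u * x) - f x‖ < ε

section UC

variable {E E' E'' : Type*} [NormedAddCommGroup E] [NormedAddCommGroup E'] [NormedAddCommGroup E'']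

lemma UC.continuous [IsTopologicalGroup G] {f : G → E} (hf : UC f) : Continuous f := by
  rw [continuous_iff_continuousAt]
  intro x
  rw [Metric.continuousAt_iff']
  intro ε hε
  obtain ⟨W, hW, h⟩ := hf ε hε
  have h1 : Tendsto (fun y : G => y * x⁻¹) (𝓝 x) (𝓝 1) := by
    have : Continuous fun y : G => y * x⁻¹ := continuous_mul_const _
    have h2 := this.tendsto x
    simpa using h2
  filter_upwards [h1 hW] with y hy
  have := h _ hy x
  rw [inv_mul_cancel_right] at this
  rw [dist_eq_norm]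
  exact this

lemma UC.of_le {f : G → E} {g : G → E'} (hf : UC f) (C : ℝ)
    (h : ∀ x y, ‖g x - g y‖ ≤ C * ‖f x - f y‖) : UC g := by
  intro ε hε
  obtain ⟨W, hW, h1⟩ := hf (ε / (|C| + 1)) (by positivity)
  refine ⟨W, hW, fun u hu x => ?_⟩
  have h2 := h1 u hu x
  have h3 := h (u * x) x
  have hC : (0 : ℝ) < |C| + 1 := by positivity
  rw [lt_div_iff₀ hC] at h2
  have h4 : C * ‖f (u * x) - f x‖ ≤ ‖f (u * x) - f x‖ * (|C| + 1) := by
    have := norm_nonneg (f (u * x) - f x)
    nlinarith [le_abs_self C]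
  linarith

lemma UC.of_le₂ {f : G → E} {f' : G → E''} {g : G → E'} (hf : UC f) (hf' : UC f') (C : ℝ)
    (h : ∀ x y, ‖g x - g y‖ ≤ C * (‖f x - f y‖ + ‖f' x - f' y‖)) : UC g := by
  intro ε hε
  obtain ⟨W, hW, h1⟩ := hf (ε / (|C| + 1) / 2) (by positivity)
  obtain ⟨W', hW', h1'⟩ := hf' (ε / (|C| + 1) / 2) (by positivity)
  refine ⟨W ∩ W', inter_mem hW hW', fun u hu x => ?_⟩
  have h2 := h1 u hu.1 x
  have h2' := h1' u hu.2 x
  have h3 := h (u * x) x
  have hC : (0 : ℝ) < |C| + 1 := by positivity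
  have h5 : ‖f (u * x) - f x‖ + ‖f' (u * x) - f' x‖ < ε / (|C| + 1) := by linarith
  rw [lt_div_iff₀ hC] at h5
  have h4 : C * (‖f (u * x) - f x‖ + ‖f' (u * x) - f' x‖) ≤
      (‖f (u * x) - f x‖ + ‖f' (u * x) - f' x‖) * (|C| + 1) := by
    have := norm_nonneg (f (u * x) - f x)
    have := norm_nonneg (f' (u * x) - f' x)
    nlinarith [le_abs_self C]
  linarith

lemma UC.const (c : E) : UC (fun _ : G => c) := by
  intro ε hε
  exact ⟨univ, univ_mem, fun u _ x => by simpa using hε⟩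

lemma UC.add {f g : G → E} (hf : UC f) (hg : UC g) : UC (fun x => f x + g x) := by
  refine UC.of_le₂ hf hg 1 fun x y => ?_
  rw [one_mul]
  have : f x + g x - (f y + g y) = (f x - f y) + (g x - g y) := by abel
  rw [this]
  exact norm_add_le _ _

lemma UC.sub {f g : G → E} (hf : UC f) (hg : UC g) : UC (fun x => f x - g x) := by
  refine UC.of_le₂ hf hg 1 fun x y => ?_
  rw [one_mul]
  have : f x - g x - (f y - g y) = (f x - f y) - (g x - g y) := by abel
  rw [this]
  exact norm_sub_le _ _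

lemma UC.sum {ι : Type*} (s : Finset ι) {f : ι → G → E} (hf : ∀ i ∈ s, UC (f i)) :
    UC (fun x => ∑ i ∈ s, f i x) := by
  classical
  induction s using Finset.induction_on with
  | empty => simpa using UC.const (G := G) (0 : E)
  | insert a s ha ih =>
    simp only [Finset.sum_insert ha]
    exact (hf a (Finset.mem_insert_self _ _)).add
      (ih fun i hi => hf i (Finset.mem_insert_of_mem hi))

lemma UC.norm {f : G → E} (hf : UC f) : UC (fun x => ‖f x‖) := by
  refine UC.of_le hf 1 fun x y => ?_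
  rw [one_mul]
  exact abs_norm_sub_norm_le _ _

lemma UC.min {f g : G → ℝ} (hf : UC f) (hg : UC g) : UC (fun x => min (f x) (g x)) := by
  refine UC.of_le₂ hf hg 1 fun x y => ?_
  rw [one_mul]
  simp only [Real.norm_eq_abs]
  refine (abs_min_sub_min_le_max _ _ _ _).trans ?_
  exact max_le_add_of_nonneg (abs_nonneg _) (abs_nonneg _)

lemma UC.max {f g : G → ℝ} (hf : UC f) (hg : UC g) : UC (fun x => max (f x) (g x)) := by
  refine UC.of_le₂ hf hg 1 fun x y => ?_
  rw [one_mul]
  simp only [Real.norm_eq_abs]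
  refine (abs_max_sub_max_le_max _ _ _ _).trans ?_
  exact max_le_add_of_nonneg (abs_nonneg _) (abs_nonneg _)

lemma UC.mul {f g : G → ℂ} (hf : UC f) (hg : UC g) {C : ℝ} (hC : ∀ x, ‖f x‖ ≤ C)
    (hC' : ∀ x, ‖g x‖ ≤ C) : UC (fun x => f x * g x) := by
  refine UC.of_le₂ hf hg C fun x y => ?_
  have : f x * g x - f y * g y = (f x - f y) * g x + f y * (g x - g y) := by ring
  rw [this]
  refine (norm_add_le _ _).trans ?_
  rw [norm_mul, norm_mul]
  have h1 := hC' x
  have h2 := hC y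
  have h3 := norm_nonneg (f x - f y)
  have h4 := norm_nonneg (g x - g y)
  nlinarith

lemma UC.inv {f : G → ℂ} (hf : UC f) {c : ℝ} (hc : 0 < c) (h : ∀ x, c ≤ ‖f x‖) :
    UC (fun x => (f x)⁻¹) := by
  refine UC.of_le hf (c⁻¹ * c⁻¹) fun x y => ?_
  have hx : f x ≠ 0 := by
    intro h0
    have := h x
    rw [h0, norm_zero] at this
    linarith
  have hy : f y ≠ 0 := by
    intro h0
    have := h y
    rw [h0, norm_zero] at this
    linarith
  rw [inv_sub_inv hx hy, norm_div, norm_mul, norm_sub_rev, div_eq_inv_mul]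
  refine mul_le_mul_of_nonneg_right ?_ (norm_nonneg _)
  rw [mul_inv]
  exact mul_le_mul (inv_anti₀ hc (h x)) (inv_anti₀ hc (h y)) (by positivity) (by positivity)

lemma UC.of_hasCompactSupport [IsTopologicalGroup G] {f : G → ℝ} (hf : Continuous f)
    (hc : HasCompactSupport f) : UC f := by
  intro ε hε
  have hK : IsCompact (tsupport f) := hc
  have h1 : ∀ᶠ u in 𝓝 (1 : G), ∀ x ∈ tsupport f, |f (u * x) - f x| < ε := by
    refine hK.eventually_forall_of_forall_eventually fun x _ => ?_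
    have h2 : Continuous fun z : G × G => |f (z.1 * z.2) - f z.2| := by fun_prop
    refine (h2.tendsto (1, x)).eventually (gt_mem_nhds ?_)
    simpa using hε
  refine ⟨_, inter_mem h1 (inv_mem_nhds_one G h1), fun u hu x => ?_⟩
  rw [Real.norm_eq_abs]
  by_cases hx : x ∈ tsupport f
  · exact hu.1 x hx
  · by_cases hux : u * x ∈ tsupport f
    · have := hu.2 (u * x) hux
      rw [inv_mul_cancel_left, abs_sub_comm] at this
      exact this
    · rw [image_eq_zero_of_notMem_tsupport hx, image_eq_zero_of_notMem_tsupport hux]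
      simpa using hε

end UC

/-! ### The algebra and its spectrum -/

/-- The set of bounded right uniformly continuous functions. -/
abbrev rucSet (G : Type u) [TopologicalSpace G] [Group G] : Set (G →ᵇ ℂ) :=
  {f : G →ᵇ ℂ | ∀ ε : ℝ, 0 < ε → ∃ W ∈ nhds (1 : G), ∀ u ∈ W, ∀ x : G, ‖f (u * x) - f x‖ < ε}

/-- The algebra of bounded right uniformly continuous functions. -/
noncomputable abbrev rucAlg (G : Type u) [TopologicalSpace G] [Group G] : Subalgebra ℂ (G →ᵇ ℂ) :=
  Algebra.adjoin ℂ (rucSet G)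

lemma mem_rucAlg {f : G →ᵇ ℂ} : f ∈ rucAlg G ↔ UC (f : G → ℂ) := by
  constructor
  · intro hf
    induction hf using Algebra.adjoin_induction with
    | mem x hx => exact hx
    | algebraMap r => exact UC.const (G := G) r
    | add x y hx hy h1 h2 => exact h1.add h2
    | mul x y hx hy h1 h2 =>
      exact h1.mul h2 (C := max ‖x‖ ‖y‖) (fun z => (x.norm_coe_le_norm z).trans (le_max_left _ _))
        (fun z => (y.norm_coe_le_norm z).trans (le_max_right _ _))
  · intro hf
    exact Algebra.subset_adjoin hf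

lemma isClosed_rucAlg : IsClosed (rucAlg G : Set (G →ᵇ ℂ)) := by
  rw [← isSeqClosed_iff_isClosed]
  intro f g hf hg
  have hf' : ∀ n, UC (f n : G → ℂ) := fun n => mem_rucAlg.1 (hf n)
  refine mem_rucAlg.2 ?_
  intro ε hε
  obtain ⟨n, hn⟩ := ((Metric.tendsto_atTop.1 hg) (ε / 3) (by positivity))
  have h1 := hn n le_rfl
  obtain ⟨W, hW, h2⟩ := hf' n (ε / 3) (by positivity)
  refine ⟨W, hW, fun u hu x => ?_⟩
  have h3 := h2 u hu x
  have h4 : ∀ z, ‖f n z - g z‖ < ε / 3 := fun z => by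
    rw [← dist_eq_norm]
    exact (BoundedContinuousFunction.dist_coe_le_dist z).trans_lt h1
  have h5 : g (u * x) - g x = -(f n (u * x) - g (u * x)) + (f n (u * x) - f n x) + (f n x - g x) := by
    ring
  rw [h5]
  refine (norm_add₃_le).trans_lt ?_
  rw [norm_neg]
  linarith [h4 (u * x), h4 x]

instance : CompleteSpace (rucAlg G) := isClosed_rucAlg.completeSpace_coe

/-- The maximal `G`-compactification of `G`. -/
abbrev Comp (G : Type u) [TopologicalSpace G] [Group G] : Type u :=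
  ↥(WeakDual.characterSpace ℂ ↥(rucAlg G))

/-- Evaluation at a point as an algebra homomorphism. -/
noncomputable def evHom (x : G) : rucAlg G →ₐ[ℂ] ℂ where
  toFun f := (f : G →ᵇ ℂ) x
  map_one' := rfl
  map_mul' _ _ := rfl
  map_zero' := rfl
  map_add' _ _ := rfl
  commutes' _ := rfl

/-- The canonical map `G → β_G G`. -/
noncomputable def ev (x : G) : Comp G := WeakDual.CharacterSpace.equivAlgHom.symm (evHom x)

lemma ev_apply (x : G) (f : rucAlg G) : ev x f = (f : G →ᵇ ℂ) x := rfl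

lemma continuous_apply_comp (f : rucAlg G) : Continuous fun y : Comp G => y f :=
  (WeakDual.eval_continuous f).comp continuous_subtype_val

lemma continuous_ev : Continuous (ev : G → Comp G) := by
  refine Continuous.subtype_mk ?_ _
  refine WeakDual.continuous_of_continuous_eval fun f => ?_
  exact (f : G →ᵇ ℂ).continuous

/-- Elements of the algebra from functions. -/
noncomputable def mkAlg [IsTopologicalGroup G] (f : G → ℂ) (hf : UC f) (C : ℝ)
    (hC : ∀ x, ‖f x‖ ≤ C) : rucAlg G :=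
  ⟨BoundedContinuousFunction.ofNormedAddCommGroup f hf.continuous C hC, mem_rucAlg.2 hf⟩

lemma mkAlg_apply [IsTopologicalGroup G] (f : G → ℂ) (hf : UC f) (C : ℝ)
    (hC : ∀ x, ‖f x‖ ≤ C) (x : G) : (mkAlg f hf C hC : G →ᵇ ℂ) x = f x := rfl

lemma uc_coe (f : rucAlg G) : UC ((f : G →ᵇ ℂ) : G → ℂ) := mem_rucAlg.1 f.2

/-- Basic neighbourhoods in the spectrum. -/
lemma exists_finset_nhds (y : Comp G) (O : Set (Comp G)) (hO : O ∈ 𝓝 y) :
    ∃ (s : Finset (rucAlg G)) (ε : ℝ), 0 < ε ∧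
      ∀ z : Comp G, (∀ f ∈ s, ‖z f - y f‖ < ε) → z ∈ O := by
  have h1 : IsInducing fun (z : Comp G) (f : rucAlg G) => z f := by
    have h2 : IsInducing fun (z : WeakDual ℂ (rucAlg G)) (f : rucAlg G) => z f := ⟨rfl⟩
    exact h2.comp IsInducing.subtypeVal
  rw [h1.nhds_eq_comap] at hO
  obtain ⟨t, ht, htO⟩ := hO
  rw [nhds_pi, Filter.mem_pi'] at ht
  obtain ⟨I, V, hV, hIt⟩ := ht
  have h3 : ∀ f : rucAlg G, ∃ ε : ℝ, 0 < ε ∧ Metric.ball (y f) ε ⊆ V f := fun f =>
    Metric.mem_nhds_iff.1 (hV f)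
  choose ε hε hεV using h3
  by_cases hI : I.Nonempty
  · refine ⟨I, I.inf' hI ε, (Finset.lt_inf'_iff hI).2 fun f _ => hε f, fun z hz => htO (hIt ?_)⟩
    intro f hf
    refine hεV f ?_
    rw [Metric.mem_ball, dist_eq_norm]
    exact (hz f hf).trans_le (Finset.inf'_le _ hf)
  · rw [Finset.not_nonempty_iff_eq_empty] at hI
    refine ⟨∅, 1, one_pos, fun z _ => htO (hIt ?_)⟩
    intro f hf
    rw [hI] at hf
    simp at hf

lemma denseRange_ev [IsTopologicalGroup G] : DenseRange (ev : G → Comp G) := by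
  intro y
  rw [mem_closure_iff_nhds]
  intro O hO
  obtain ⟨s, ε, hε, hs⟩ := exists_finset_nhds y O hO
  by_contra hcon
  have hfar : ∀ x : G, ∃ f ∈ s, ε ≤ ‖(f : G →ᵇ ℂ) x - y f‖ := by
    intro x
    by_contra hx
    push Not at hx
    exact hcon ⟨ev x, hs (ev x) (fun f hf => hx f hf), x, rfl⟩
  -- the function `h = ∑ (f - y f) * conj (f - y f)`
  let a : rucAlg G → rucAlg G := fun f => f - algebraMap ℂ _ (y f)
  have ha : ∀ f x, (a f : G →ᵇ ℂ) x = (f : G →ᵇ ℂ) x - y f := fun f x => rfl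
  have hconj : ∀ f : rucAlg G, UC (fun x => (starRingEnd ℂ) ((a f : G →ᵇ ℂ) x)) := by
    intro f
    refine (uc_coe (a f)).of_le 1 fun x z => ?_
    rw [one_mul, ← map_sub, RCLike.norm_conj]
  let b : rucAlg G → rucAlg G := fun f => mkAlg _ (hconj f) ‖(a f : G →ᵇ ℂ)‖ (fun x => by
    rw [RCLike.norm_conj]
    exact (a f : G →ᵇ ℂ).norm_coe_le_norm x)
  let h : rucAlg G := ∑ f ∈ s, a f * b f
  have hx : ∀ x, (h : G →ᵇ ℂ) x = ((∑ f ∈ s, ‖(f : G →ᵇ ℂ) x - y f‖ ^ 2 : ℝ) : ℂ) := by
    intro x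
    have h1 : (h : G →ᵇ ℂ) x = evHom x h := rfl
    rw [h1, map_sum]
    push_cast
    refine Finset.sum_congr rfl fun f _ => ?_
    rw [map_mul]
    change (a f : G →ᵇ ℂ) x * (starRingEnd ℂ) ((a f : G →ᵇ ℂ) x) = _
    rw [ha, Complex.mul_conj, Complex.normSq_eq_norm_sq]
    push_cast
    rfl
  have hlow : ∀ x, ε ^ 2 ≤ ‖(h : G →ᵇ ℂ) x‖ := by
    intro x
    rw [hx, Complex.norm_real, Real.norm_eq_abs, abs_of_nonneg (by positivity)]
    obtain ⟨f, hf, hfx⟩ := hfar x
    calc ε ^ 2 ≤ ‖(f : G →ᵇ ℂ) x - y f‖ ^ 2 := by gcongr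
      _ ≤ _ := Finset.single_le_sum (f := fun f : rucAlg G => ‖(f : G →ᵇ ℂ) x - y f‖ ^ 2)
        (fun i _ => by positivity) hf
  have hε2 : 0 < ε ^ 2 := by positivity
  let k : rucAlg G := mkAlg _ ((uc_coe h).inv hε2 hlow) ((ε ^ 2)⁻¹) (fun x => by
    rw [norm_inv]
    exact inv_anti₀ hε2 (hlow x))
  have hk : h * k = 1 := by
    apply Subtype.ext
    ext x
    change (h : G →ᵇ ℂ) x * ((h : G →ᵇ ℂ) x)⁻¹ = 1
    refine mul_inv_cancel₀ ?_
    intro h0
    have := hlow x
    rw [h0, norm_zero] at this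
    linarith
  have hy0 : y h = 0 := by
    have h1 : y h = ∑ f ∈ s, y (a f) * y (b f) := by
      rw [map_sum]
      exact Finset.sum_congr rfl fun f _ => map_mul y _ _
    rw [h1]
    refine Finset.sum_eq_zero fun f _ => ?_
    have h2 : y (a f) = 0 := by
      change y (f - algebraMap ℂ _ (y f)) = 0
      rw [map_sub, AlgHomClass.commutes]
      simp
    rw [h2, zero_mul]
  have hy1 : y h * y k = 1 := by
    rw [← map_mul, hk, map_one]
  rw [hy0, zero_mul] at hy1
  exact zero_ne_one hy1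

end Pool.Agent.Helper75.BG
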