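import Mathlib
import Pool.Agent.Helper75.BG.RUC

set_option autoImplicit false

open Topology Set Filter
open scoped BoundedContinuousFunction Pointwise

namespace Pool.Agent.Helper75.BG

universe u v w

section Real

variable {G : Type u} [TopologicalSpace G] [Group G] [IsTopologicalGroup G]

/-- Bounded real-valued right uniformly continuous functions. -/
structure RFun (G : Type u) [TopologicalSpace G] [Group G] where
  /-- the function -/
  f : G → ℝ
  uc : UC f
  bdd : ∃ C : ℝ, ∀ x, |f x| ≤ C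

/-- The element of the algebra given by a real function. -/
noncomputable def RFun.toAlg (φ : RFun G) : rucAlg G :=
  mkAlg (fun x => (φ.f x : ℂ)) (φ.uc.of_le 1 fun x y => by
    rw [one_mul, ← Complex.ofReal_sub, Complex.norm_real]) φ.bdd.choose (fun x => by
    rw [Complex.norm_real]
    exact φ.bdd.choose_spec x)

/-- The extension of a real function to the compactification. -/
noncomputable def RFun.ext (φ : RFun G) : Comp G → ℝ := fun y => (y φ.toAlg).re

lemma RFun.ext_ev (φ : RFun G) (x : G) : φ.ext (ev x) = φ.f x := rfl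

lemma RFun.continuous_ext (φ : RFun G) : Continuous φ.ext :=
  Complex.continuous_re.comp (continuous_apply_comp _)

lemma RFun.ext_mono {φ ψ : RFun G} (h : ∀ x, φ.f x ≤ ψ.f x) (y : Comp G) : φ.ext y ≤ ψ.ext y := by
  refine denseRange_ev.induction_on (p := fun y => φ.ext y ≤ ψ.ext y) y
    (isClosed_le φ.continuous_ext ψ.continuous_ext) fun x => ?_
  exact h x

lemma RFun.ext_nonneg {φ : RFun G} (h : ∀ x, 0 ≤ φ.f x) (y : Comp G) : 0 ≤ φ.ext y := by
  refine denseRange_ev.induction_on (p := fun y => 0 ≤ φ.ext y) y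
    (isClosed_le continuous_const φ.continuous_ext) fun x => ?_
  exact h x

lemma exists_rfun (y : Comp G) (O : Set (Comp G)) (hO : O ∈ 𝓝 y) :
    ∃ φ : RFun G, (∀ x, 0 ≤ φ.f x) ∧ 0 < φ.ext y ∧ ∀ z, 0 < φ.ext z → z ∈ O := by
  obtain ⟨s, ε, hε, hs⟩ := exists_finset_nhds y O hO
  have huc : UC (fun x : G => max (ε - ∑ f ∈ s, ‖(f : G →ᵇ ℂ) x - y f‖) 0) := by
    refine UC.max ((UC.const ε).sub (UC.sum s fun f _ => ?_)) (UC.const 0)
    exact ((uc_coe f).sub (UC.const _)).norm
  let φ : RFun G := ⟨_, huc, ε, fun x => by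
    rw [abs_of_nonneg (le_max_right _ _)]
    refine max_le ?_ hε.le
    have : 0 ≤ ∑ f ∈ s, ‖(f : G →ᵇ ℂ) x - y f‖ := Finset.sum_nonneg fun _ _ => norm_nonneg _
    linarith⟩
  have hφ : ∀ z, φ.ext z = max (ε - ∑ f ∈ s, ‖z f - y f‖) 0 := by
    intro z
    refine denseRange_ev.induction_on
      (p := fun z => φ.ext z = max (ε - ∑ f ∈ s, ‖z f - y f‖) 0) z ?_ fun x => ?_
    · refine isClosed_eq φ.continuous_ext ?_
      refine (continuous_const.sub (continuous_finsetSum _ fun f _ => ?_)).max continuous_const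
      exact ((continuous_apply_comp f).sub continuous_const).norm
    · rfl
  refine ⟨φ, fun x => le_max_right _ _, ?_, ?_⟩
  · rw [hφ]
    simp [hε]
  · intro z hz
    rw [hφ] at hz
    have h1 : 0 < ε - ∑ f ∈ s, ‖z f - y f‖ := by
      by_contra h
      rw [max_eq_right (not_lt.1 h)] at hz
      exact lt_irrefl _ hz
    refine hs z fun f hf => ?_
    have h2 : ‖z f - y f‖ ≤ ∑ f ∈ s, ‖z f - y f‖ :=
      Finset.single_le_sum (f := fun f : rucAlg G => ‖z f - y f‖) (fun _ _ => norm_nonneg _) hf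
    linarith

lemma ev_injective [LocallyCompactSpace G] [T2Space G] :
    Function.Injective (ev : G → Comp G) := by
  intro x y hxy
  by_contra hne
  obtain ⟨f, hf1, hf2, hf3, hf4⟩ := exists_continuous_one_zero_of_isCompact
    (isCompact_singleton (x := x)) (isClosed_singleton (x := y)) (by simpa using hne)
  let φ : RFun G := ⟨f, UC.of_hasCompactSupport f.continuous hf3, 1, fun z => by
    rw [abs_of_nonneg (hf4 z).1]
    exact (hf4 z).2⟩
  have h1 : φ.ext (ev x) = φ.ext (ev y) := by rw [hxy]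
  rw [φ.ext_ev, φ.ext_ev] at h1
  have h2 : f x = 1 := hf1 (mem_singleton x)
  have h3 : f y = 0 := hf2 (mem_singleton y)
  change f x = f y at h1
  rw [h2, h3] at h1
  exact one_ne_zero h1

end Real

/-! ### Local lemmas -/

section Local

lemma dimOn_any {X : Type u} [TopologicalSpace X] {F : Set X} {n : ℕ} (h : DimOn F n)
    (T : Type v) [Finite T] (U : T → Set X) (hU : ∀ i, IsOpen (U i)) (hF : F ⊆ ⋃ i, U i) :
    ∃ V : T → Set X, (∀ i, IsOpen (V i)) ∧ F ⊆ (⋃ i, V i) ∧ (∀ i, V i ⊆ U i) ∧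
      ∀ x ∈ F, Nat.card {i // x ∈ V i} ≤ n + 1 := by
  obtain ⟨m, ⟨e⟩⟩ := Finite.exists_equiv_fin T
  obtain ⟨V, h1, h2, h3, h4⟩ := h (Fin m) (fun i => U (e.symm i)) (fun i => hU _) (by
    intro x hx
    obtain ⟨i, hi⟩ := mem_iUnion.1 (hF hx)
    refine mem_iUnion.2 ⟨e i, ?_⟩
    rwa [e.symm_apply_apply])
  refine ⟨fun t => V (e t), fun i => h1 _, ?_, fun i => ?_, fun x hx => ?_⟩
  · intro x hx
    obtain ⟨i, hi⟩ := mem_iUnion.1 (h2 hx)
    refine mem_iUnion.2 ⟨e.symm i, ?_⟩
    rwa [e.apply_symm_apply]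
  · have h5 := h3 (e i)
    rwa [e.symm_apply_apply] at h5
  · refine le_trans ?_ (h4 x hx)
    refine Nat.card_le_card_of_injective (fun t : {t // x ∈ V (e t)} =>
      (⟨e t.1, t.2⟩ : {i // x ∈ V i})) ?_
    intro s t hst
    exact Subtype.ext (e.injective (congrArg Subtype.val hst))

lemma dimOn_of_refine_any {X : Type u} [TopologicalSpace X] {F : Set X} {n : ℕ}
    (h : ∀ (ι : Type) [Finite ι] (U : ι → Set X), (∀ i, IsOpen (U i)) → F ⊆ ⋃ i, U i →
      ∃ (κ : Type v) (_ : Finite κ) (V : κ → Set X), (∀ k, IsOpen (V k)) ∧ F ⊆ (⋃ k, V k) ∧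
        (∀ k, ∃ i, V k ⊆ U i) ∧ ∀ x ∈ F, Nat.card {k // x ∈ V k} ≤ n + 1) : DimOn F n := by
  refine dimOn_of_refine fun ι _ U hU hF => ?_
  obtain ⟨κ, hκ, V, h1, h2, h3, h4⟩ := h ι U hU hF
  obtain ⟨m, ⟨e⟩⟩ := Finite.exists_equiv_fin κ
  refine ⟨Fin m, inferInstance, fun k => V (e.symm k), fun k => h1 _, ?_, fun k => h3 _, ?_⟩
  · intro x hx
    obtain ⟨i, hi⟩ := mem_iUnion.1 (h2 hx)
    refine mem_iUnion.2 ⟨e i, ?_⟩
    rwa [e.symm_apply_apply]
  · intro x hx
    refine le_trans ?_ (h4 x hx)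
    refine Nat.card_le_card_of_injective (fun t : {t // x ∈ V (e.symm t)} =>
      (⟨e.symm t.1, t.2⟩ : {i // x ∈ V i})) ?_
    intro s t hst
    exact Subtype.ext (e.symm.injective (congrArg Subtype.val hst))

lemma local_lemma {K : Type u} [TopologicalSpace K] [CompactSpace K] [T2Space K] {n : ℕ}
    (hK : DimOn (univ : Set K) n) {T : Type v} [Fintype T] (h : K → T → ℝ) (hc : Continuous h)
    (h0 : ∀ k t, 0 ≤ h k t) (hpos : ∀ k, 0 < ∑ t, h k t) :
    ∃ (g : K → T → ℝ) (η : ℝ), Continuous g ∧ 0 < η ∧ (∀ k t, 0 ≤ g k t) ∧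
      (∀ k t, g k t ≤ h k t) ∧ (∀ k, η ≤ ∑ t, g k t) ∧
      ∀ k, Nat.card {t // 0 < g k t} ≤ n + 1 := by
  classical
  have hct : ∀ t, Continuous fun k => h k t := fun t => (continuous_apply t).comp hc
  let U : T → Set K := fun t => {k | 0 < h k t}
  have hU : ∀ t, IsOpen (U t) := fun t => isOpen_lt continuous_const (hct t)
  have hcov : (univ : Set K) ⊆ ⋃ t, U t := by
    intro k _
    by_contra hk
    have : ∀ t, h k t = 0 := by
      intro t
      refine le_antisymm ?_ (h0 k t)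
      by_contra hlt
      exact hk (mem_iUnion.2 ⟨t, not_le.1 hlt⟩)
    have h1 := hpos k
    simp [this] at h1
  obtain ⟨V, hV1, hV2, hV3, hV4⟩ := dimOn_any hK T U hU hcov
  obtain ⟨q, hq⟩ := PartitionOfUnity.exists_isSubordinate (isClosed_univ (X := K)) V hV1 hV2
  let g : K → T → ℝ := fun k t => min (q t k) (h k t)
  have hgc : Continuous g := continuous_pi fun t => (q t).continuous.min (hct t)
  have hgpos : ∀ k, 0 < ∑ t, g k t := by
    intro k
    have h1 : ∑ᶠ t, q t k = 1 := q.sum_eq_one (mem_univ k)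
    rw [finsum_eq_sum_of_fintype] at h1
    obtain ⟨t, -, ht⟩ : ∃ t ∈ Finset.univ, 0 < q t k := by
      by_contra hcon
      push Not at hcon
      have : ∑ t, q t k ≤ 0 := Finset.sum_nonpos hcon
      linarith
    have hkV : k ∈ V t := hq t (subset_tsupport _ ht.ne')
    have hhk : 0 < h k t := hV3 t hkV
    exact Finset.sum_pos' (fun t _ => le_min (q.nonneg t k) (h0 k t))
      ⟨t, Finset.mem_univ t, lt_min ht hhk⟩
  have hη : ∃ η : ℝ, 0 < η ∧ ∀ k, η ≤ ∑ t, g k t := by
    rcases isEmpty_or_nonempty K with hE | hN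
    · exact ⟨1, one_pos, fun k => (hE.false k).elim⟩
    · have hsc : Continuous fun k => ∑ t, g k t :=
        continuous_finsetSum _ fun t _ => (continuous_apply t).comp hgc
      obtain ⟨k₀, -, hk₀⟩ := isCompact_univ.exists_isMinOn (univ_nonempty (α := K))
        hsc.continuousOn
      exact ⟨_, hgpos k₀, fun k => hk₀ (mem_univ k)⟩
  obtain ⟨η, hη0, hη⟩ := hη
  refine ⟨g, η, hgc, hη0, fun k t => le_min (q.nonneg t k) (h0 k t), fun k t => min_le_right _ _,
    hη, fun k => ?_⟩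
  refine le_trans (card_subtype_mono fun t ht => ?_) (hV4 k (mem_univ k))
  have : 0 < q t k := ht.trans_le (min_le_left _ _)
  exact hq t (subset_tsupport _ this.ne')

/-- A finite selection lemma, obtained from the Arzelà-Ascoli theorem. -/
lemma finite_selection {K : Type u} [TopologicalSpace K] [CompactSpace K] [T2Space K] {n : ℕ}
    (hK : DimOn (univ : Set K) n) {T : Type v} [Fintype T] {D : Type w} (F : D → K → T → ℝ)
    (hc : ∀ d, Continuous (F d)) (heq : Equicontinuous F) (C : ℝ) (hC : ∀ d k t, |F d k t| ≤ C)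
    (h0 : ∀ d k t, 0 ≤ F d k t) (δ : ℝ) (hδ : 0 < δ) (hsum : ∀ d k, δ ≤ ∑ t, F d k t) :
    ∃ (S : Set (K → T → ℝ)) (j : D → K → T → ℝ) (η : ℝ), S.Finite ∧ (∀ d, j d ∈ S) ∧ 0 < η ∧
      (∀ φ ∈ S, Continuous φ) ∧ (∀ φ ∈ S, ∀ k t, 0 ≤ φ k t) ∧
      (∀ d k t, j d k t ≤ F d k t) ∧ (∀ φ ∈ S, ∀ k, η ≤ ∑ t, φ k t) ∧
      (∀ φ ∈ S, ∀ k, Nat.card {t // 0 < φ k t} ≤ n + 1) := by
  classical
  -- the family as bounded continuous functions
  let Fb : D → (K →ᵇ (T → ℝ)) := fun d => BoundedContinuousFunction.mkOfCompact ⟨F d, hc d⟩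
  have hFb : ∀ d k, Fb d k = F d k := fun d k => rfl
  let A : Set (K →ᵇ (T → ℝ)) := range Fb
  have hA : IsCompact (closure A) := by
    refine BoundedContinuousFunction.arzela_ascoli (Metric.closedBall (0 : T → ℝ) (max C 0))
      (isCompact_closedBall _ _) A ?_ ?_
    · rintro _ k ⟨d, rfl⟩
      rw [mem_closedBall_zero_iff, pi_norm_le_iff_of_nonneg (le_max_right _ _)]
      intro t
      exact (hC d k t).trans (le_max_left _ _)
    · intro k₀ U hU
      filter_upwards [heq k₀ U hU] with k hk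
      rintro ⟨_, d, rfl⟩
      exact hk d
  -- properties of elements of the closure
  have hev : ∀ (k : K) (t : T), Continuous fun f : K →ᵇ (T → ℝ) => f k t := fun k t =>
    (continuous_apply t).comp (BoundedContinuousFunction.lipschitz_eval_const k).continuous
  have hcl0 : ∀ f ∈ closure A, ∀ k t, 0 ≤ f k t := by
    intro f hf k t
    have hcl : IsClosed {f : K →ᵇ (T → ℝ) | 0 ≤ f k t} := isClosed_le continuous_const (hev k t)
    refine closure_minimal ?_ hcl hf
    rintro _ ⟨d, rfl⟩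
    exact h0 d k t
  have hclδ : ∀ f ∈ closure A, ∀ k, δ ≤ ∑ t, f k t := by
    intro f hf k
    have hcl : IsClosed {f : K →ᵇ (T → ℝ) | δ ≤ ∑ t, f k t} :=
      isClosed_le continuous_const (continuous_finsetSum _ fun t _ => hev k t)
    refine closure_minimal ?_ hcl hf
    rintro _ ⟨d, rfl⟩
    exact hsum d k
  -- local solutions
  have hloc : ∀ f ∈ closure A, ∃ (g : K → T → ℝ) (η : ℝ), Continuous g ∧ 0 < η ∧
      (∀ k t, 0 ≤ g k t) ∧ (∀ k t, g k t ≤ f k t) ∧ (∀ k, η ≤ ∑ t, g k t) ∧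
      ∀ k, Nat.card {t // 0 < g k t} ≤ n + 1 := fun f hf =>
    local_lemma hK (fun k t => f k t) f.continuous (hcl0 f hf)
      (fun k => hδ.trans_le (hclδ f hf k))
  choose! g η hg1 hg2 hg3 hg4 hg5 hg6 using hloc
  let m : ℝ := Fintype.card T + 1
  have hm : 0 < m := by positivity
  let ε : (K →ᵇ (T → ℝ)) → ℝ := fun f => η f / (2 * m)
  have hε : ∀ f ∈ closure A, 0 < ε f := fun f hf => by
    have := hg2 f hf
    positivity
  obtain ⟨s, hs1, hs2⟩ := hA.elim_nhds_subcover (fun f => Metric.ball f (ε f))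
    (fun f hf => Metric.ball_mem_nhds _ (hε f hf))
  -- the chosen functions
  let ψ : (K →ᵇ (T → ℝ)) → K → T → ℝ := fun f k t => max (g f k t - ε f) 0
  have hch : ∀ d, ∃ f ∈ s, Fb d ∈ Metric.ball f (ε f) := by
    intro d
    have := hs2 (subset_closure ⟨d, rfl⟩)
    obtain ⟨f, hf, hd⟩ := mem_iUnion₂.1 this
    exact ⟨f, hf, hd⟩
  choose c hc1 hc2 using hch
  have hη' : ∃ η' : ℝ, 0 < η' ∧ ∀ f ∈ s, η' ≤ η f / 2 := by
    by_cases hsn : s.Nonempty
    · refine ⟨s.inf' hsn (fun f => η f / 2), (Finset.lt_inf'_iff hsn).2 fun f hf => ?_,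
        fun f hf => Finset.inf'_le _ hf⟩
      have := hg2 f (hs1 f hf)
      positivity
    · rw [Finset.not_nonempty_iff_eq_empty] at hsn
      exact ⟨1, one_pos, fun f hf => by simp [hsn] at hf⟩
  obtain ⟨η', hη'0, hη'⟩ := hη'
  refine ⟨ψ '' s, fun d => ψ (c d), η', s.finite_toSet.image _, fun d => ⟨c d, hc1 d, rfl⟩, hη'0,
    ?_, ?_, ?_, ?_, ?_⟩
  · rintro _ ⟨f, hf, rfl⟩
    refine continuous_pi fun t => ?_
    exact (((continuous_apply t).comp (hg1 f (hs1 f hf))).sub continuous_const).max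
      continuous_const
  · rintro _ ⟨f, hf, rfl⟩ k t
    exact le_max_right _ _
  · intro d k t
    have h1 := hg4 (c d) (hs1 _ (hc1 d)) k t
    have h2 : |F d k t - c d k t| < ε (c d) := by
      have h3 : dist (Fb d k) (c d k) < ε (c d) :=
        (BoundedContinuousFunction.dist_coe_le_dist k).trans_lt (hc2 d)
      have h4 := (dist_le_pi_dist (Fb d k) (c d k) t).trans_lt h3
      rwa [Real.dist_eq] at h4
    refine max_le ?_ (h0 d k t)
    have := (abs_lt.1 h2).1
    linarith
  · rintro _ ⟨f, hf, rfl⟩ k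
    have h1 := hg5 f (hs1 f hf) k
    have h2 := hη' f hf
    have h3 : ∑ t, (g f k t - ε f) ≤ ∑ t, ψ f k t := Finset.sum_le_sum fun t _ => le_max_left _ _
    have h4 : ∑ t, (g f k t - ε f) = ∑ t, g f k t - Fintype.card T * ε f := by
      rw [Finset.sum_sub_distrib, Finset.sum_const, Finset.card_univ, nsmul_eq_mul]
    have h5 : (Fintype.card T : ℝ) * ε f ≤ η f / 2 := by
      have h6 := hg2 f (hs1 f hf)
      have h7 : m * ε f = η f / 2 := by
        simp only [ε]
        field_simp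
      have h8 := hε f (hs1 f hf)
      have h9 : (Fintype.card T : ℝ) ≤ m := by simp [m]
      nlinarith
    linarith
  · rintro _ ⟨f, hf, rfl⟩ k
    refine le_trans (card_subtype_mono fun t ht => ?_) (hg6 f (hs1 f hf) k)
    have h1 : 0 < g f k t - ε f := by
      by_contra h
      have : ψ f k t = 0 := max_eq_right (not_lt.1 h)
      rw [this] at ht
      exact lt_irrefl _ ht
    have := hε f (hs1 f hf)
    linarith

/-- Extension of functions from a compact subset with compact support. -/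
lemma extend_compact {G : Type u} [TopologicalSpace G] [LocallyCompactSpace G] [T2Space G]
    {V K' : Set G} (hV : IsCompact V) (hVK : V ⊆ interior K') (φ : V → ℝ)
    (hφ : Continuous φ) (h0 : ∀ v, 0 ≤ φ v) :
    ∃ ψ : G → ℝ, Continuous ψ ∧ (∀ x, 0 ≤ ψ x) ∧ (∀ x, x ∉ K' → ψ x = 0) ∧
      (∀ v : V, ψ v = φ v) ∧ HasCompactSupport ψ := by
  have : CompactSpace V := isCompact_iff_compactSpace.1 hV
  let e : V → OnePoint G := fun v => ((v : G) : OnePoint G)
  have he : IsClosedEmbedding e := (OnePoint.continuous_coe.comp continuous_subtype_val).isClosedEmbedding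
    (OnePoint.coe_injective.comp Subtype.val_injective)
  obtain ⟨g, hg⟩ := ContinuousMap.exists_extension' (he) (⟨φ, hφ⟩ : C(V, ℝ))
  obtain ⟨b, hb1, hb2, hb3, hb4⟩ := exists_continuous_one_zero_of_isCompact hV
    (isOpen_interior (s := K')).isClosed_compl (by
      rw [disjoint_compl_right_iff_subset]
      exact hVK)
  refine ⟨fun x => max (g (x : OnePoint G)) 0 * b x, ?_, ?_, ?_, ?_, ?_⟩
  · exact ((g.continuous.comp OnePoint.continuous_coe).max continuous_const).mul b.continuous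
  · intro x
    exact mul_nonneg (le_max_right _ _) (hb4 x).1
  · intro x hx
    have : b x = 0 := hb2 (fun h => hx (interior_subset h))
    simp only [this, mul_zero]
  · intro v
    have h1 : b v = 1 := hb1 v.2
    have h2 : g ((v : G) : OnePoint G) = φ v := congrFun hg v
    simp only [h1, h2, mul_one]
    exact max_eq_left (h0 v)
  · exact hb3.mul_left

end Local

end Pool.Agent.Helper75.BG
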