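import Mathlib
import Pool.Agent.Helper75.BG.RUC2
import Pool.Agent.Helper52.Brouwer.Main

/-!
# Covering dimension of cubes

Compact subsets of `ℝ^m` have covering dimension at most `m`; the unit cube has covering dimension
at least `m` (Lebesgue, from the Poincare-Miranda theorem).
-/

set_option autoImplicit false

open Topology Set Filter

namespace Pool.Agent.Helper75.BG

/-! ### Upper bound: coloured bricks -/

section Upper

variable {m : ℕ}

/-- the index of the brick of colour `j` which contains `x` -/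
private noncomputable def bk (δ : ℝ) (j : Fin (m + 1)) (x : Fin m → ℝ) : Fin m → ℤ :=
  fun i => ⌊x i / δ - (j : ℝ) / (m + 1)⌋

/-- the brick of colour `j` with index `k` -/
private def brick (δ : ℝ) (j : Fin (m + 1)) (k : Fin m → ℤ) : Set (Fin m → ℝ) :=
  {x | ∀ i, (k i : ℝ) + (j : ℝ) / (m + 1) < x i / δ ∧ x i / δ < k i + 1 + (j : ℝ) / (m + 1)}

private lemma isOpen_brick (δ : ℝ) (j : Fin (m + 1)) (k : Fin m → ℤ) : IsOpen (brick δ j k) := by
  have h : brick δ j k = ⋂ i : Fin m, ({x : Fin m → ℝ | (k i : ℝ) + (j : ℝ) / (m + 1) < x i / δ} ∩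
      {x | x i / δ < k i + 1 + (j : ℝ) / (m + 1)}) := by
    ext x
    simp [brick]
  rw [h]
  refine isOpen_iInter_of_finite fun i => ?_
  exact (isOpen_lt continuous_const ((continuous_apply i).div_const _)).inter
    (isOpen_lt ((continuous_apply i).div_const _) continuous_const)

private lemma bk_eq {δ : ℝ} {j : Fin (m + 1)} {k : Fin m → ℤ} {x : Fin m → ℝ}
    (h : x ∈ brick δ j k) : bk δ j x = k := by
  funext i
  have h1 := h i
  unfold bk
  rw [Int.floor_eq_iff]
  constructor <;> linarith [h1.1, h1.2]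

private lemma exists_brick (δ : ℝ) (x : Fin m → ℝ) :
    ∃ (j : Fin (m + 1)), x ∈ brick δ j (bk δ j x) := by
  classical
  by_contra hcon
  push Not at hcon
  -- every colour is blocked by a coordinate
  have h1 : ∀ j : Fin (m + 1), ∃ i : Fin m, ∃ k : ℤ, x i / δ = k + (j : ℝ) / (m + 1) := by
    intro j
    by_contra hj
    push Not at hj
    refine hcon j fun i => ?_
    have h2 := hj i (bk δ j x i)
    have h3 := Int.floor_le (x i / δ - (j : ℝ) / (m + 1))
    have h4 := Int.lt_floor_add_one (x i / δ - (j : ℝ) / (m + 1))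
    have h5 : ((bk δ j x i : ℤ) : ℝ) ≤ x i / δ - (j : ℝ) / (m + 1) := h3
    have h6 : x i / δ - (j : ℝ) / (m + 1) < (bk δ j x i : ℤ) + 1 := h4
    constructor
    · exact lt_of_le_of_ne (by linarith) (Ne.symm h2)
    · linarith
  choose f k hf using h1
  -- two colours with the same coordinate
  obtain ⟨a, b, hab, hfab⟩ := Fintype.exists_ne_map_eq_of_card_lt f (by simp)
  have h2 := hf a
  have h3 := hf b
  rw [hfab] at h2
  have hm : (0 : ℝ) < (m : ℝ) + 1 := by positivity
  have h4 : ((k a : ℝ) - k b) * (m + 1) = (b : ℝ) - a := by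
    have h5 : (k a : ℝ) + (a : ℝ) / (m + 1) = k b + (b : ℝ) / (m + 1) := h2.symm.trans h3
    field_simp at h5
    linarith
  have h6 : (k a - k b) * ((m : ℤ) + 1) = (b : ℤ) - (a : ℤ) := by
    have : (((k a - k b) * ((m : ℤ) + 1) : ℤ) : ℝ) = (((b : ℤ) - (a : ℤ) : ℤ) : ℝ) := by
      push_cast
      exact h4
    exact_mod_cast this
  have ha := a.2
  have hb := b.2
  have hne : (a : ℕ) ≠ b := fun h => hab (Fin.ext h)
  have h7 : |(b : ℤ) - (a : ℤ)| < (m : ℤ) + 1 := by
    rw [abs_lt]
    constructor <;> omega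
  have h8 : (b : ℤ) - (a : ℤ) ≠ 0 := by omega
  have h9 : k a - k b = 0 := by
    by_contra h10
    have h11 : 1 ≤ |k a - k b| := Int.one_le_abs h10
    rw [← h6, abs_mul] at h7
    have h12 : |(m : ℤ) + 1| = (m : ℤ) + 1 := abs_of_nonneg (by positivity)
    rw [h12] at h7
    nlinarith
  rw [h9, zero_mul] at h6
  exact h8 h6.symm

/-- A compact subset of `ℝ^m` has covering dimension at most `m`. -/
theorem dimOn_compact_pi {K : Set (Fin m → ℝ)} (hK : IsCompact K) : DimOn K m := by
  classical
  intro ι _ U hU hKU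
  obtain ⟨δ, hδ, hδU⟩ := lebesgue_number_lemma_of_metric hK hU hKU
  -- scale
  have hd : (0 : ℝ) < δ / 2 := by positivity
  -- a brick that meets `K` lies in some `U i`
  have hsm : ∀ (j : Fin (m + 1)) (k : Fin m → ℤ), (brick (δ / 2) j k ∩ K).Nonempty →
      ∃ i, brick (δ / 2) j k ⊆ U i := by
    rintro j k ⟨y, hy, hyK⟩
    obtain ⟨i, hi⟩ := hδU y hyK
    refine ⟨i, fun z hz => hi ?_⟩
    rw [Metric.mem_ball, dist_pi_lt_iff hδ]
    intro l
    rw [Real.dist_eq]
    have h1 := hy l
    have h2 := hz l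
    have h3 : |z l / (δ / 2) - y l / (δ / 2)| < 1 := by
      rw [abs_lt]
      constructor <;> linarith [h1.1, h1.2, h2.1, h2.2]
    rw [← sub_div, abs_div, abs_of_pos hd, div_lt_one hd] at h3
    linarith
  choose φ hφ using hsm
  refine ⟨fun i => ⋃ (j : Fin (m + 1)) (k : Fin m → ℤ) (h : (brick (δ / 2) j k ∩ K).Nonempty)
    (_ : φ j k h = i), brick (δ / 2) j k, fun i => ?_, ?_, fun i => ?_, fun x hx => ?_⟩
  · exact isOpen_iUnion fun j => isOpen_iUnion fun k => isOpen_iUnion fun _ =>
      isOpen_iUnion fun _ => isOpen_brick _ _ _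
  · intro x hx
    obtain ⟨j, hj⟩ := exists_brick (δ / 2) x
    exact mem_iUnion.2 ⟨φ j (bk (δ / 2) j x) ⟨x, hj, hx⟩, mem_iUnion.2 ⟨j, mem_iUnion.2
      ⟨bk (δ / 2) j x, mem_iUnion.2 ⟨⟨x, hj, hx⟩, mem_iUnion.2 ⟨rfl, hj⟩⟩⟩⟩⟩
  · intro x hx
    simp only [mem_iUnion] at hx
    obtain ⟨j, k, h1, h2, h3⟩ := hx
    rw [← h2]
    exact hφ j k h1 h3
  · -- order
    have hw : ∀ i : {i // x ∈ ⋃ (j : Fin (m + 1)) (k : Fin m → ℤ)
        (h : (brick (δ / 2) j k ∩ K).Nonempty) (_ : φ j k h = i), brick (δ / 2) j k},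
        ∃ j : Fin (m + 1), ∃ h, φ j (bk (δ / 2) j x) h = i.1 := by
      rintro ⟨i, hi⟩
      simp only [mem_iUnion] at hi
      obtain ⟨j, k, h1, h2, h3⟩ := hi
      have h4 := bk_eq h3
      subst h4
      exact ⟨j, h1, h2⟩
    choose g hg1 hg2 using hw
    have hinj : Function.Injective g := by
      intro a b hab
      refine Subtype.ext ?_
      rw [← hg2 a, ← hg2 b]
      congr 1
      rw [hab]
    have h1 := Nat.card_le_card_of_injective g hinj
    rwa [Nat.card_fin] at h1

end Upper

/-! ### Lower bound -/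

section Lower

variable {m : ℕ}

/-- General position: vectors in `ℝ^m` can be moved a little so that any `m` of them are linearly
independent. -/
lemma exists_general {T : Type} [Fintype T] (q : T → Fin m → ℝ) :
    ∃ p : T → Fin m → ℝ, (∀ t i, |p t i - q t i| < 1) ∧
      ∀ e : Fin m ↪ T, LinearIndependent ℝ fun i => p (e i) := by
  classical
  -- distinct real numbers
  let a : T → ℝ := fun t => ((Fintype.equivFin T t : ℕ) : ℝ)
  have ha : Function.Injective a := by
    intro s t h
    have h1 : (Fintype.equivFin T s : ℕ) = Fintype.equivFin T t := by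
      have h2 : ((Fintype.equivFin T s : ℕ) : ℝ) = ((Fintype.equivFin T t : ℕ) : ℝ) := h
      exact_mod_cast h2
    exact (Fintype.equivFin T).injective (Fin.ext h1)
  let P : (Fin m ↪ T) → Polynomial ℝ := fun e =>
    Matrix.det ((Polynomial.X : Polynomial ℝ) • (Matrix.vandermonde fun i => a (e i)).map
      Polynomial.C + (Matrix.of fun i => q (e i)).map Polynomial.C)
  have hP : ∀ e, P e ≠ 0 := by
    intro e h0
    have h1 := Polynomial.coeff_det_X_add_C_card (Matrix.vandermonde fun i => a (e i))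
      (Matrix.of fun i => q (e i))
    have h2 : (Matrix.vandermonde fun i => a (e i)).det ≠ 0 := by
      rw [Matrix.det_vandermonde_ne_zero_iff]
      exact ha.comp e.injective
    apply h2
    rw [← h1]
    change (P e).coeff _ = 0
    rw [h0, Polynomial.coeff_zero]
  have hprod : (∏ e, P e) ≠ 0 := Finset.prod_ne_zero_iff.2 fun e _ => hP e
  -- a small number which is not a root
  let B : ℝ := 1 + ∑ t : T, ∑ i : Fin m, |a t ^ (i : ℕ)|
  have hB : 0 < B := by positivity
  have hBle : ∀ t (i : Fin m), |a t ^ (i : ℕ)| < B := by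
    intro t i
    have h1 : |a t ^ (i : ℕ)| ≤ ∑ i : Fin m, |a t ^ (i : ℕ)| :=
      Finset.single_le_sum (f := fun i : Fin m => |a t ^ (i : ℕ)|) (fun _ _ => abs_nonneg _)
        (Finset.mem_univ i)
    have h2 : ∑ i : Fin m, |a t ^ (i : ℕ)| ≤ ∑ t : T, ∑ i : Fin m, |a t ^ (i : ℕ)| :=
      Finset.single_le_sum (f := fun t : T => ∑ i : Fin m, |a t ^ (i : ℕ)|)
        (fun _ _ => Finset.sum_nonneg fun _ _ => abs_nonneg _) (Finset.mem_univ t)
    simp only [B]
    linarith
  have hex : ∃ ε : ℝ, 0 < ε ∧ ε < 1 / B ∧ (∏ e, P e).eval ε ≠ 0 := by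
    by_contra hcon
    push Not at hcon
    have hinf : (Set.Ioo (0 : ℝ) (1 / B)).Infinite := Set.Ioo_infinite (by positivity)
    refine hinf (((∏ e, P e).roots.toFinset.finite_toSet).subset ?_)
    intro ε hε
    rw [Finset.mem_coe, Multiset.mem_toFinset, Polynomial.mem_roots hprod]
    exact hcon ε hε.1 hε.2
  obtain ⟨ε, h0, h1, h2⟩ := hex
  refine ⟨fun t i => ε * a t ^ (i : ℕ) + q t i, fun t i => ?_, fun e => ?_⟩
  · have h3 : ε * a t ^ (i : ℕ) + q t i - q t i = ε * a t ^ (i : ℕ) := by ring
    rw [h3, abs_mul, abs_of_pos h0]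
    have h4 := hBle t i
    have h5 : ε * B < 1 := by
      rwa [lt_div_iff₀ hB] at h1
    have h6 := abs_nonneg (a t ^ (i : ℕ))
    nlinarith
  · have h3 : (P e).eval ε ≠ 0 := by
      intro h4
      apply h2
      rw [Polynomial.eval_prod]
      exact Finset.prod_eq_zero (Finset.mem_univ e) h4
    have h4 : (P e).eval ε = (Matrix.of fun (i j : Fin m) =>
        ε * a (e i) ^ (j : ℕ) + q (e i) j).det := by
      have h5 := RingHom.map_det (Polynomial.evalRingHom ε)
        ((Polynomial.X : Polynomial ℝ) • (Matrix.vandermonde fun i => a (e i)).map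
          Polynomial.C + (Matrix.of fun i => q (e i)).map Polynomial.C)
      rw [Polynomial.coe_evalRingHom] at h5
      change Polynomial.eval ε (Matrix.det _) = _
      rw [h5]
      congr 1
      ext i j
      simp [Matrix.vandermonde]
    rw [h4] at h3
    exact Matrix.linearIndependent_rows_of_det_ne_zero h3

/-- **Lebesgue's covering theorem**: the unit cube of `ℝ^m` does not have covering dimension
less than `m`. -/
theorem le_of_dimOn_cube {n : ℕ} (h : DimOn (Icc (0 : Fin m → ℝ) 1) n) : m ≤ n := by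
  classical
  by_contra hlt
  rw [not_le] at hlt
  -- the cover by sets which do not meet opposite faces
  let U : (Fin m → Bool) → Set (Fin m → ℝ) := fun ε =>
    {x | ∀ i, (ε i = true → 0 < x i) ∧ (ε i = false → x i < 1)}
  have hU : ∀ ε, IsOpen (U ε) := by
    intro ε
    have h1 : U ε = ⋂ i : Fin m, {x : Fin m → ℝ | (ε i = true → 0 < x i) ∧
        (ε i = false → x i < 1)} := by
      ext x
      simp [U]
    rw [h1]
    refine isOpen_iInter_of_finite fun i => ?_
    cases hi : ε i with
    | false =>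
      simp only [Bool.false_eq_true, false_implies, true_and, true_implies]
      exact isOpen_lt (continuous_apply i) continuous_const
    | true =>
      simp only [true_implies, Bool.true_eq_false, false_implies, and_true]
      exact isOpen_lt continuous_const (continuous_apply i)
  obtain ⟨V, h1, h2, h3, h4⟩ := dimOn_any h (Fin m → Bool) U hU (by
    intro x hx
    refine mem_iUnion.2 ⟨fun i => decide (0 < x i), fun i => ⟨fun hi => by simpa using hi,
      fun hi => ?_⟩⟩
    have h5 : ¬ 0 < x i := by simpa using hi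
    linarith)
  obtain ⟨p, hp1, hp2⟩ := exists_general fun (ε : Fin m → Bool) (i : Fin m) =>
    if ε i = true then (1 : ℝ) else -1
  -- the functions
  let lam : (Fin m → Bool) → (Fin m → ℝ) → ℝ := fun ε x => Metric.infDist x (V ε)ᶜ
  have hm : 0 < m := lt_of_le_of_lt (Nat.zero_le n) hlt
  have hne : ∀ ε, ((V ε)ᶜ).Nonempty := by
    intro ε
    refine ⟨fun i => if ε i = true then 0 else 1, fun hx => ?_⟩
    have h5 := h3 ε hx ⟨0, hm⟩
    cases hi : ε ⟨0, hm⟩ with
    | false =>
      have h6 := h5.2 hi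
      simp [hi] at h6
    | true =>
      have h6 := h5.1 hi
      simp [hi] at h6
  have hlam0 : ∀ ε x, 0 ≤ lam ε x := fun ε x => Metric.infDist_nonneg
  have hlampos : ∀ ε x, x ∈ V ε ↔ 0 < lam ε x := by
    intro ε x
    have h5 := (h1 ε).isClosed_compl.notMem_iff_infDist_pos (hne ε) (x := x)
    rw [← h5, mem_compl_iff, not_not]
  have hlamc : ∀ ε, Continuous (lam ε) := fun ε => Metric.continuous_infDist_pt _
  let f : (Fin m → ℝ) → (Fin m → ℝ) := fun x => ∑ ε, lam ε x • p ε
  have hfc : Continuous f := by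
    refine continuous_finsetSum _ fun ε _ => ?_
    exact (hlamc ε).smul continuous_const
  have hfi : ∀ x i, f x i = ∑ ε, lam ε x * p ε i := by
    intro x i
    simp only [f, Finset.sum_apply, Pi.smul_apply, smul_eq_mul]
  obtain ⟨x, hx, hfx⟩ := Pool.Agent.Helper52.Brouwer.poincare_miranda_fin f hfc.continuousOn (by
    intro x hx i hxi
    rw [hfi]
    refine Finset.sum_nonpos fun ε _ => ?_
    rcases (hlam0 ε x).eq_or_lt with h5 | h5
    · rw [← h5, zero_mul]
    · have h6 := h3 ε ((hlampos ε x).2 h5) i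
      have h7 : ε i ≠ true := by
        intro h8
        have h9 := h6.1 h8
        rw [hxi] at h9
        exact lt_irrefl _ h9
      have h8 := hp1 ε i
      rw [if_neg h7] at h8
      have h9 : p ε i < 0 := by
        have := (abs_lt.1 h8).2
        linarith
      nlinarith) (by
    intro x hx i hxi
    rw [hfi]
    refine Finset.sum_nonneg fun ε _ => ?_
    rcases (hlam0 ε x).eq_or_lt with h5 | h5
    · rw [← h5, zero_mul]
    · have h6 := h3 ε ((hlampos ε x).2 h5) i
      have h7 : ε i = true := by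
        by_contra h8
        have h9 := h6.2 (by simpa using h8)
        rw [hxi] at h9
        exact lt_irrefl _ h9
      have h8 := hp1 ε i
      rw [if_pos h7] at h8
      have h9 : 0 < p ε i := by
        have := (abs_lt.1 h8).1
        linarith
      positivity)
  -- the active sets
  let S : Finset (Fin m → Bool) := Finset.univ.filter fun ε => 0 < lam ε x
  have hScard : S.card ≤ m := by
    have h5 := h4 x hx
    have h6 : Nat.card {ε // x ∈ V ε} = S.card := by
      rw [Nat.card_eq_fintype_card, Fintype.card_subtype]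
      congr 1
      ext ε
      simp only [Finset.mem_filter, Finset.mem_univ, true_and, S]
      exact hlampos ε x
    omega
  have hcard : m ≤ (Finset.univ : Finset (Fin m → Bool)).card := by
    rw [Finset.card_univ, Fintype.card_fun, Fintype.card_bool, Fintype.card_fin]
    exact Nat.lt_two_pow_self.le
  obtain ⟨S', hSS', -, hS'⟩ := Finset.exists_subsuperset_card_eq (Finset.subset_univ S) hScard hcard
  let e : Fin m ↪ (Fin m → Bool) :=
    (S'.equivFinOfCardEq hS').symm.toEmbedding.trans (Function.Embedding.subtype _)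
  have he : ∀ ε ∈ S', ∃ i, e i = ε := by
    intro ε hε
    refine ⟨S'.equivFinOfCardEq hS' ⟨ε, hε⟩, ?_⟩
    simp [e]
  have heS : ∀ i, e i ∈ S' := fun i => ((S'.equivFinOfCardEq hS').symm i).2
  have hsum : ∑ i, lam (e i) x • p (e i) = 0 := by
    rw [← hfx]
    change _ = ∑ ε, lam ε x • p ε
    have h5 : ∑ ε ∈ S', lam ε x • p ε = ∑ ε, lam ε x • p ε := by
      refine Finset.sum_subset (Finset.subset_univ _) fun ε _ hε => ?_
      have h6 : ε ∉ S := fun h7 => hε (hSS' h7)
      have h7 : ¬ 0 < lam ε x := by simpa [S] using h6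
      have h8 : lam ε x = 0 := le_antisymm (not_lt.1 h7) (hlam0 ε x)
      rw [h8, zero_smul]
    rw [← h5]
    refine Finset.sum_bij (fun i _ => e i) (fun i _ => heS i) (fun i _ j _ hij => e.injective hij)
      (fun ε hε => ?_) (fun i _ => rfl)
    obtain ⟨i, hi⟩ := he ε hε
    exact ⟨i, Finset.mem_univ i, hi⟩
  have hzero := (Fintype.linearIndependent_iff.1 (hp2 e)) (fun i => lam (e i) x) hsum
  -- some function is positive
  obtain ⟨ε, hε⟩ := mem_iUnion.1 (h2 hx)
  have h5 : ε ∈ S' := hSS' (by simpa [S] using (hlampos ε x).1 hε)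
  obtain ⟨i, hi⟩ := he ε h5
  have h6 := hzero i
  rw [hi] at h6
  have h7 := (hlampos ε x).1 hε
  rw [h6] at h7
  exact lt_irrefl _ h7

end Lower

end Pool.Agent.Helper75.BG
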