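import Mathlib
import Pool.Agent.Helper75.BG.RUC3
import Pool.Agent.Helper75.BG.Cube

/-!
# The dimension of locally Euclidean groups and of their maximal compactifications
-/

set_option autoImplicit false

open Topology Set Filter Module

namespace Pool.Agent.Helper75.BG

universe u v w

section General

variable {X : Type u} {Y : Type v} [TopologicalSpace X] [TopologicalSpace Y]

lemma dimOn_of_univ_subtype {F : Set X} {n : ℕ} (h : DimOn (univ : Set F) n) : DimOn F n := by
  intro ι _ U hU hF
  obtain ⟨V, h1, h2, h3, h4⟩ := h ι (fun i => Subtype.val ⁻¹' U i)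
    (fun i => (hU i).preimage continuous_subtype_val) (by
      intro x _
      obtain ⟨i, hi⟩ := mem_iUnion.1 (hF x.2)
      exact mem_iUnion.2 ⟨i, hi⟩)
  choose O hO1 hO2 using fun i => isOpen_induced_iff.1 (h1 i)
  refine ⟨fun i => O i ∩ U i, fun i => (hO1 i).inter (hU i), ?_, fun i => inter_subset_right, ?_⟩
  · intro x hx
    obtain ⟨i, hi⟩ := mem_iUnion.1 (h2 (mem_univ (⟨x, hx⟩ : F)))
    refine mem_iUnion.2 ⟨i, ?_, h3 i hi⟩
    rw [← hO2 i] at hi
    exact hi
  · intro x hx
    refine le_trans (card_subtype_mono fun i hi => ?_) (h4 ⟨x, hx⟩ (mem_univ _))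
    rw [← hO2 i]
    exact hi.1

lemma dimOn_univ_homeo (e : X ≃ₜ Y) {n : ℕ} (h : DimOn (univ : Set X) n) :
    DimOn (univ : Set Y) n := by
  intro ι _ U hU hF
  obtain ⟨V, h1, h2, h3, h4⟩ := h ι (fun i => e ⁻¹' U i) (fun i => (hU i).preimage e.continuous) (by
    intro x _
    obtain ⟨i, hi⟩ := mem_iUnion.1 (hF (mem_univ (e x)))
    exact mem_iUnion.2 ⟨i, hi⟩)
  refine ⟨fun i => e.symm ⁻¹' V i, fun i => (h1 i).preimage e.symm.continuous, ?_, ?_, ?_⟩
  · intro y _
    obtain ⟨i, hi⟩ := mem_iUnion.1 (h2 (mem_univ (e.symm y)))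
    exact mem_iUnion.2 ⟨i, hi⟩
  · intro i y hy
    have h5 := h3 i hy
    rw [mem_preimage, e.apply_symm_apply] at h5
    exact h5
  · intro y _
    exact h4 (e.symm y) (mem_univ _)

lemma dimLE_homeo (e : X ≃ₜ Y) {n : ℕ} (h : DimLE X n) : DimLE Y n := by
  rw [dimLE_iff_dimOn] at h ⊢
  exact dimOn_univ_homeo e h

lemma dimOn_mono_dim {F : Set X} {n m : ℕ} (h : DimOn F n) (hnm : n ≤ m) : DimOn F m := by
  intro ι _ U hU hF
  obtain ⟨V, h1, h2, h3, h4⟩ := h ι U hU hF
  exact ⟨V, h1, h2, h3, fun x hx => (h4 x hx).trans (by omega)⟩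

lemma dimOn_image_iff [T2Space Y] {K : Set X} (hK : IsCompact K) (F : X → Y)
    (hF : ContinuousOn F K) (hinj : InjOn F K) {n : ℕ} : DimOn K n ↔ DimOn (F '' K) n := by
  have : CompactSpace K := isCompact_iff_compactSpace.1 hK
  let f : K ≃ (F '' K) := (hinj.bijOn_image).equiv F
  have hf : Continuous f := by
    refine Continuous.subtype_mk ?_ _
    exact continuousOn_iff_continuous_domRestrict.1 hF
  let e : K ≃ₜ (F '' K) := hf.homeoOfEquivCompactToT2
  constructor
  · intro h
    exact dimOn_of_univ_subtype (dimOn_univ_homeo e (dimOn_subtype h))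
  · intro h
    exact dimOn_of_univ_subtype (dimOn_univ_homeo e.symm (dimOn_subtype h))

end General

section Chart

variable {E : Type v} [NormedAddCommGroup E] [NormedSpace ℝ E] [FiniteDimensional ℝ E]
  {G : Type u} [TopologicalSpace G] [ChartedSpace E G]

variable (E) in
/-- A closed cube around a point of a manifold. -/
lemma exists_cube (g : G) : ∃ F : (Fin (finrank ℝ E) → ℝ) → G,
    ContinuousOn F (Icc 0 1) ∧ InjOn F (Icc 0 1) ∧ F '' (Icc 0 1) ∈ 𝓝 g := by
  let L : E ≃L[ℝ] (Fin (finrank ℝ E) → ℝ) := ContinuousLinearEquiv.ofFinrankEq (by simp)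
  let e : OpenPartialHomeomorph G (Fin (finrank ℝ E) → ℝ) :=
    (chartAt E g).trans L.toHomeomorph.toOpenPartialHomeomorph
  have hg : g ∈ e.source := by
    simp only [e, OpenPartialHomeomorph.trans_source, Homeomorph.toOpenPartialHomeomorph_source,
      preimage_univ, inter_univ]
    exact mem_chart_source E g
  have ht : e.target ∈ 𝓝 (e g) := e.open_target.mem_nhds (e.map_source hg)
  obtain ⟨r, hr, hrt⟩ := Metric.nhds_basis_closedBall.mem_iff.1 ht
  let A : (Fin (finrank ℝ E) → ℝ) → (Fin (finrank ℝ E) → ℝ) := fun y => fun i => e g i + r * (2 * y i - 1)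
  have hA : Continuous A := by
    refine continuous_pi fun i => ?_
    fun_prop
  have hAinj : Function.Injective A := by
    intro y z hyz
    funext i
    have h1 := congrFun hyz i
    simp only [A] at h1
    have h2 : r * (2 * y i - 1) = r * (2 * z i - 1) := by linarith
    have h3 := mul_left_cancel₀ hr.ne' h2
    linarith
  have hAball : A '' Icc 0 1 = Metric.closedBall (e g) r := by
    ext z
    rw [mem_closedBall_iff_norm, pi_norm_le_iff_of_nonneg hr.le]
    constructor
    · rintro ⟨y, hy, rfl⟩ i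
      have h1 := hy.1 i
      have h2 := hy.2 i
      simp only [Pi.zero_apply, Pi.one_apply] at h1 h2
      have h3 : (A y - e g) i = r * (2 * y i - 1) := by
        simp [A]
      rw [h3, Real.norm_eq_abs, abs_mul, abs_of_pos hr]
      have h4 : |2 * y i - 1| ≤ 1 := by
        rw [abs_le]
        constructor <;> linarith
      nlinarith
    · intro h
      refine ⟨fun i => ((z i - e g i) / r + 1) / 2, ⟨fun i => ?_, fun i => ?_⟩, ?_⟩
      · have h1 := h i
        rw [Pi.sub_apply, Real.norm_eq_abs, abs_le] at h1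
        have h2 : -1 ≤ (z i - e g i) / r := by
          rw [le_div_iff₀ hr]
          linarith [h1.1]
        simp only [Pi.zero_apply]
        linarith
      · have h1 := h i
        rw [Pi.sub_apply, Real.norm_eq_abs, abs_le] at h1
        have h2 : (z i - e g i) / r ≤ 1 := by
          rw [div_le_iff₀ hr]
          linarith [h1.2]
        simp only [Pi.one_apply]
        linarith
      · funext i
        simp only [A]
        field_simp
        ring
  refine ⟨fun y => e.symm (A y), ?_, ?_, ?_⟩
  · refine e.continuousOn_symm.comp hA.continuousOn fun y hy => hrt ?_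
    rw [← hAball]
    exact ⟨y, hy, rfl⟩
  · intro y hy z hz hyz
    have h1 : A y ∈ e.target := hrt (by rw [← hAball]; exact ⟨y, hy, rfl⟩)
    have h2 : A z ∈ e.target := hrt (by rw [← hAball]; exact ⟨z, hz, rfl⟩)
    exact hAinj (e.symm.injOn h1 h2 hyz)
  · have h1 : (fun y => e.symm (A y)) '' Icc 0 1 = e.symm '' Metric.closedBall (e g) r := by
      rw [← hAball, image_image]
    rw [h1]
    have h2 : e.source ∩ e ⁻¹' Metric.closedBall (e g) r ∈ 𝓝 g := by
      refine inter_mem (e.open_source.mem_nhds hg) ?_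
      exact (e.continuousAt hg).preimage_mem_nhds (Metric.closedBall_mem_nhds _ hr)
    refine mem_of_superset h2 ?_
    rintro x ⟨hx1, hx2⟩
    exact ⟨e x, hx2, e.left_inv hx1⟩

end Chart

section Group

variable (E : Type v) [NormedAddCommGroup E] [NormedSpace ℝ E] [FiniteDimensional ℝ E]
  {G : Type u} [TopologicalSpace G] [Group G] [IsTopologicalGroup G] [T2Space G]
  [ChartedSpace E G]

omit [IsTopologicalGroup G] in
/-- The covering dimension of a locally Euclidean group is at least the dimension of the model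
space. -/
theorem finrank_le_of_dimLE {n : ℕ} (h : DimLE G n) : finrank ℝ E ≤ n := by
  obtain ⟨F, h1, h2, -⟩ := exists_cube E (1 : G)
  have hK : IsCompact (Icc (0 : Fin (finrank ℝ E) → ℝ) 1) := isCompact_Icc
  have hc : IsClosed (F '' Icc 0 1) := (hK.image_of_continuousOn h1).isClosed
  have h3 : DimOn (F '' Icc 0 1) n := (dimLE_iff_dimOn.1 h).mono_closed hc (subset_univ _)
  exact le_of_dimOn_cube ((dimOn_image_iff hK F h1 h2).2 h3)

/-- The covering dimension of the compactification is at most the dimension of the model space. -/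
theorem dimLE_comp_of_finrank_le [LocallyCompactSpace G] {n : ℕ} (h : finrank ℝ E ≤ n) :
    DimLE (Comp G) n := by
  obtain ⟨F, h1, h2, h3⟩ := exists_cube E (1 : G)
  have hK : IsCompact (Icc (0 : Fin (finrank ℝ E) → ℝ) 1) := isCompact_Icc
  have h4 : DimOn (Icc (0 : Fin (finrank ℝ E) → ℝ) 1) (finrank ℝ E) := dimOn_compact_pi hK
  exact dimLE_comp_of_local (F '' Icc 0 1) (hK.image_of_continuousOn h1) h3
    (dimOn_mono_dim ((dimOn_image_iff hK F h1 h2).1 h4) h)

theorem dim_lie [LocallyCompactSpace G] (n : ℕ) :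
    (DimLE (Comp G) n ↔ finrank ℝ E ≤ n) ∧ (DimLE G n ↔ finrank ℝ E ≤ n) := by
  refine ⟨⟨fun h => finrank_le_of_dimLE E (dimLE_of_dimLE_comp h), dimLE_comp_of_finrank_le E⟩,
    ⟨finrank_le_of_dimLE E, fun h => dimLE_of_dimLE_comp (dimLE_comp_of_finrank_le E h)⟩⟩

end Group

end Pool.Agent.Helper75.BG
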