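import Mathlib
import Pool.Agent.Helper75.BG.RUC3
import Pool.Agent.Helper75.BG.Lie

/-!
# The spectrum of the algebra of right uniformly continuous functions is the maximal
`G`-compactification of `G`
-/

set_option autoImplicit false

open Topology Set Filter
open scoped BoundedContinuousFunction

namespace Pool.Agent.Helper75.BG

universe u v w

/-- A `G`-compactification of a `G`-space `X`: a compact Hausdorff space `Y` with a continuous
action of `G` and a continuous equivariant map `ν : X → Y` with dense range. -/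
structure IsGComp (G : Type u) [Group G] [TopologicalSpace G] {X : Type u} [TopologicalSpace X]
    [MulAction G X] {Y : Type u} [TopologicalSpace Y] [MulAction G Y] (ν : X → Y) : Prop where
  compact : CompactSpace Y
  hausdorff : T2Space Y
  action : Continuous fun p : G × Y => p.1 • p.2
  continuous : Continuous ν
  equivariant : ∀ (g : G) (x : X), ν (g • x) = g • ν x
  dense : DenseRange ν

/-- The maximal `G`-compactification: a `G`-compactification through which every
`G`-compactification of `X` factors by a unique continuous equivariant map. -/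
def IsMaxGComp (G : Type u) [Group G] [TopologicalSpace G] {X : Type u} [TopologicalSpace X]
    [MulAction G X] {Y : Type u} [TopologicalSpace Y] [MulAction G Y] (ν : X → Y) : Prop :=
  IsGComp G ν ∧ ∀ (Z : Type u) [TopologicalSpace Z] [MulAction G Z] (μ : X → Z), IsGComp G μ →
    ∃! f : Y → Z, Continuous f ∧ (∀ (g : G) (y : Y), f (g • y) = g • f y) ∧ ∀ x, f (ν x) = μ x

variable {G : Type u} [TopologicalSpace G] [Group G] [IsTopologicalGroup G]

lemma uc_shift (g : G) (f : rucAlg G) : UC fun x : G => (f : G →ᵇ ℂ) (g * x) := by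
  intro ε hε
  obtain ⟨W, hW, h⟩ := uc_coe f ε hε
  refine ⟨(fun u : G => g * u * g⁻¹) ⁻¹' W, ?_, fun u hu x => ?_⟩
  · have h1 : Continuous fun u : G => g * u * g⁻¹ := by fun_prop
    refine h1.continuousAt.preimage_mem_nhds ?_
    simpa using hW
  · have h2 := h _ hu (g * x)
    have h3 : g * u * g⁻¹ * (g * x) = g * (u * x) := by group
    rwa [h3] at h2

/-- Translation of functions. -/
noncomputable def shift (g : G) : rucAlg G →ₐ[ℂ] rucAlg G where
  toFun f := ⟨(f : G →ᵇ ℂ).compContinuous ⟨fun x => g * x, continuous_const_mul g⟩,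
    mem_rucAlg.2 (uc_shift g f)⟩
  map_one' := rfl
  map_mul' _ _ := rfl
  map_zero' := rfl
  map_add' _ _ := rfl
  commutes' _ := rfl

lemma shift_apply (g : G) (f : rucAlg G) (x : G) :
    (shift g f : G →ᵇ ℂ) x = (f : G →ᵇ ℂ) (g * x) := rfl

noncomputable instance : SMul G (Comp G) :=
  ⟨fun g y => WeakDual.CharacterSpace.equivAlgHom.symm
    ((WeakDual.CharacterSpace.equivAlgHom y).comp (shift g))⟩

lemma smul_apply_comp (g : G) (y : Comp G) (f : rucAlg G) : (g • y) f = y (shift g f) := rfl

omit [IsTopologicalGroup G] in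
lemma comp_ext {y z : Comp G} (h : ∀ f : rucAlg G, y f = z f) : y = z := DFunLike.ext _ _ h

noncomputable instance : MulAction G (Comp G) where
  one_smul y := by
    refine comp_ext fun f => ?_
    rw [smul_apply_comp]
    congr 1
    refine Subtype.ext (BoundedContinuousFunction.ext fun x => ?_)
    rw [shift_apply, one_mul]
  mul_smul g h y := by
    refine comp_ext fun f => ?_
    rw [smul_apply_comp, smul_apply_comp, smul_apply_comp]
    congr 1
    refine Subtype.ext (BoundedContinuousFunction.ext fun x => ?_)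
    rw [shift_apply, shift_apply, shift_apply, mul_assoc]

lemma smul_ev (g x : G) : g • (ev x : Comp G) = ev (g * x) := by
  refine comp_ext fun f => ?_
  rw [smul_apply_comp, ev_apply, ev_apply, shift_apply]

omit [IsTopologicalGroup G] in
lemma norm_comp_apply_le (y : Comp G) (f : rucAlg G) : ‖y f‖ ≤ ‖f‖ := by
  have h1 := AlgHom.norm_apply_le_self_mul_norm_one (WeakDual.CharacterSpace.equivAlgHom y) f
  have h2 : ‖(1 : rucAlg G)‖ = 1 := by
    change ‖(1 : G →ᵇ ℂ)‖ = 1
    exact norm_one
  rw [h2, mul_one] at h1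
  exact h1

lemma continuous_smul_comp : Continuous fun p : G × Comp G => p.1 • p.2 := by
  refine Continuous.subtype_mk ?_ _
  refine WeakDual.continuous_of_continuous_eval fun f => ?_
  change Continuous fun p : G × Comp G => p.2 (shift p.1 f)
  rw [continuous_iff_continuousAt]
  rintro ⟨g₀, y₀⟩
  rw [Metric.continuousAt_iff']
  intro ε hε
  obtain ⟨W, hW, h⟩ := uc_coe f (ε / 3) (by positivity)
  have h1 : ∀ᶠ g in 𝓝 g₀, ‖shift g f - shift g₀ f‖ ≤ ε / 3 := by
    have h2 : Tendsto (fun g : G => g * g₀⁻¹) (𝓝 g₀) (𝓝 1) := by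
      have h3 : Continuous fun g : G => g * g₀⁻¹ := continuous_mul_const _
      simpa using h3.tendsto g₀
    filter_upwards [h2 hW] with g hg
    change ‖((shift g f : G →ᵇ ℂ) - (shift g₀ f : G →ᵇ ℂ))‖ ≤ ε / 3
    rw [BoundedContinuousFunction.norm_le (by positivity)]
    intro x
    have h4 := h _ hg (g₀ * x)
    have h5 : g * g₀⁻¹ * (g₀ * x) = g * x := by group
    rw [h5] at h4
    exact h4.le
  have h2 : ∀ᶠ y in 𝓝 y₀, dist (y (shift g₀ f)) (y₀ (shift g₀ f)) < ε / 3 :=
    Metric.continuousAt_iff'.1 (continuous_apply_comp (shift g₀ f)).continuousAt _ (by positivity)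
  rw [nhds_prod_eq]
  filter_upwards [h1.prod_mk h2] with p hp
  have h3 : p.2 (shift p.1 f) - y₀ (shift g₀ f) =
      p.2 (shift p.1 f - shift g₀ f) + (p.2 (shift g₀ f) - y₀ (shift g₀ f)) := by
    rw [map_sub]
    ring
  change dist (p.2 (shift p.1 f)) (y₀ (shift g₀ f)) < ε
  rw [dist_eq_norm, h3]
  have h4 := norm_comp_apply_le p.2 (shift p.1 f - shift g₀ f)
  have h5 := hp.2
  rw [dist_eq_norm] at h5
  have h6 := norm_add_le (p.2 (shift p.1 f - shift g₀ f)) (p.2 (shift g₀ f) - y₀ (shift g₀ f))
  have h7 := hp.1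
  linarith

theorem isGComp_ev : IsGComp G (ev : G → Comp G) where
  compact := inferInstance
  hausdorff := inferInstance
  action := continuous_smul_comp
  continuous := continuous_ev
  equivariant g x := (smul_ev g x).symm
  dense := denseRange_ev

section Universal

variable {Z : Type u} [TopologicalSpace Z] [MulAction G Z] {μ : G → Z}

lemma uc_pull (hμ : IsGComp G μ) (φ : C(Z, ℂ)) : UC fun x : G => φ (μ x) := by
  intro ε hε
  have := hμ.compact
  have h1 : ∀ᶠ u in 𝓝 (1 : G), ∀ z ∈ (univ : Set Z), ‖φ (u • z) - φ z‖ < ε := by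
    refine isCompact_univ.eventually_forall_of_forall_eventually fun z _ => ?_
    have h2 : Continuous fun p : G × Z => ‖φ (p.1 • p.2) - φ p.2‖ :=
      ((φ.continuous.comp hμ.action).sub (φ.continuous.comp continuous_snd)).norm
    have h3 : ‖φ ((1 : G) • z) - φ z‖ < ε := by
      rw [one_smul, sub_self, norm_zero]
      exact hε
    exact h2.continuousAt.eventually_lt continuousAt_const h3
  obtain ⟨W, hW, h2⟩ := h1.exists_mem
  refine ⟨W, hW, fun u hu x => ?_⟩
  have h3 := h2 u hu (μ x) (mem_univ _)
  have h4 : μ (u * x) = u • μ x := hμ.equivariant u x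
  change ‖φ (μ (u * x)) - φ (μ x)‖ < ε
  rw [h4]
  exact h3

/-- Pull back of functions. -/
noncomputable def pull (hμ : IsGComp G μ) [CompactSpace Z] : C(Z, ℂ) →ₐ[ℂ] rucAlg G where
  toFun φ := ⟨(BoundedContinuousFunction.mkOfCompact φ).compContinuous ⟨μ, hμ.continuous⟩,
    mem_rucAlg.2 (uc_pull hμ φ)⟩
  map_one' := rfl
  map_mul' _ _ := rfl
  map_zero' := rfl
  map_add' _ _ := rfl
  commutes' _ := rfl

lemma pull_apply (hμ : IsGComp G μ) [CompactSpace Z] (φ : C(Z, ℂ)) (x : G) :
    (pull hμ φ : G →ᵇ ℂ) x = φ (μ x) := rfl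

theorem exists_factor (hμ : IsGComp G μ) : ∃ f : Comp G → Z, Continuous f ∧
    (∀ (g : G) (y : Comp G), f (g • y) = g • f y) ∧ ∀ x, f (ev x) = μ x := by
  have := hμ.compact
  have := hμ.hausdorff
  let p : Comp G → WeakDual.characterSpace ℂ C(Z, ℂ) := fun y =>
    WeakDual.CharacterSpace.equivAlgHom.symm
      ((WeakDual.CharacterSpace.equivAlgHom y).comp (pull hμ))
  have hp : Continuous p := by
    refine Continuous.subtype_mk ?_ _
    refine WeakDual.continuous_of_continuous_eval fun φ => ?_
    change Continuous fun y : Comp G => y (pull hμ φ)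
    exact continuous_apply_comp _
  let e : Z ≃ₜ WeakDual.characterSpace ℂ C(Z, ℂ) := WeakDual.CharacterSpace.homeoEval Z ℂ
  have hf : Continuous fun y => e.symm (p y) := e.symm.continuous.comp hp
  have hev : ∀ x : G, e.symm (p (ev x)) = μ x := by
    intro x
    rw [e.symm_apply_eq]
    refine DFunLike.ext _ _ fun φ => ?_
    rfl
  refine ⟨fun y => e.symm (p y), hf, fun g y => ?_, hev⟩
  have h1 : Continuous fun y : Comp G => e.symm (p (g • y)) :=
    hf.comp (continuous_smul_comp.comp (continuous_const.prodMk continuous_id))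
  have h2 : Continuous fun y : Comp G => g • e.symm (p y) :=
    hμ.action.comp (continuous_const.prodMk hf)
  have h3 : (fun y : Comp G => e.symm (p (g • y))) = fun y => g • e.symm (p y) := by
    refine DenseRange.equalizer (f := (ev : G → Comp G)) denseRange_ev h1 h2 ?_
    funext x
    change e.symm (p (g • ev x)) = g • e.symm (p (ev x))
    rw [smul_ev, hev, hev]
    exact hμ.equivariant g x
  exact congrFun h3 y

end Universal

theorem isMaxGComp_ev : IsMaxGComp G (ev : G → Comp G) := by
  refine ⟨isGComp_ev, fun Z _ _ μ hμ => ?_⟩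
  obtain ⟨f, h1, h2, h3⟩ := exists_factor hμ
  refine ⟨f, ⟨h1, h2, h3⟩, ?_⟩
  rintro f' ⟨h1', -, h3'⟩
  have := hμ.hausdorff
  refine DenseRange.equalizer (f := (ev : G → Comp G)) denseRange_ev h1' h1 ?_
  funext x
  exact (h3' x).trans (h3 x).symm

/-- Any maximal `G`-compactification of `G` is homeomorphic to the spectrum. -/
theorem exists_homeo {Y : Type u} [TopologicalSpace Y] [MulAction G Y] {ν : G → Y}
    (hν : IsMaxGComp G ν) : Nonempty (Comp G ≃ₜ Y) := by
  obtain ⟨f, h1, -, h3⟩ := exists_factor hν.1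
  obtain ⟨g, ⟨g1, -, g3⟩, -⟩ := hν.2 (Comp G) ev isGComp_ev
  have := hν.1.hausdorff
  have e1 : g ∘ f = id := by
    refine DenseRange.equalizer (f := (ev : G → Comp G)) denseRange_ev (g1.comp h1) continuous_id ?_
    funext x
    change g (f (ev x)) = ev x
    rw [h3, g3]
  have e2 : f ∘ g = id := by
    refine DenseRange.equalizer hν.1.dense (h1.comp g1) continuous_id ?_
    funext x
    change f (g (ν x)) = ν x
    rw [g3, h3]
  exact ⟨⟨⟨f, g, congrFun e1, congrFun e2⟩, h1, g1⟩⟩

end Pool.Agent.Helper75.BG
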